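import Pool.Agent.Lib.MP_5deb6a_an.Tuples

/-!
# MP_5deb6a_an, Q1: the Clarkson inequality for `n`-tuples of operators, `2 ≤ p < ∞`
-/

set_option autoImplicit false

namespace Pool.Agent.Results.MP_5deb6a_an.TuplesGeTwo

open Finset Pool.Agent.Lib.MP_5deb6a_an
open scoped ENNReal

/-- For all bounded operators `A 0, …, A (n - 1)` on a complex Hilbert space, all real `p ≥ 2` and
`1 / p + 1 / q = 1`, the inequality `L ≤ R` holds in `[0, ∞]`. -/
theorem result {H : Type*} [NormedAddCommGroup H] [InnerProductSpace ℂ H] [CompleteSpace H]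
    (n : ℕ) (hn : 2 ≤ n) (p q : ℝ) (hp : 2 ≤ p) (hpq : 1 / p + 1 / q = 1)
    (A : Fin n → H →L[ℂ] H) :
    (n : ℝ≥0∞) * (∑ j, schatten p (A j) ^ p) ^ (q / p) ≤
      schatten p (∑ j, A j) ^ q +
        ∑ x ∈ (univ : Finset (Fin n × Fin n)).filter (fun x => x.1 < x.2),
          schatten p (A x.1 - A x.2) ^ q := by
  rw [right_side, left_side (by linarith)]
  exact general_one (by positivity) mat_orthogonal abs_mat_le hp hpq A

end Pool.Agent.Results.MP_5deb6a_an.TuplesGeTwo
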