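import Pool.Agent.Lib.MP_5deb6a_an.Tuples

/-!
# MP_5deb6a_an, Q2: the Clarkson inequality for `n`-tuples of operators, `p ≤ 2`
-/

set_option autoImplicit false

namespace Pool.Agent.Results.MP_5deb6a_an.TuplesLeTwo

open Finset Pool.Agent.Lib.MP_5deb6a_an
open scoped ENNReal

/-- Let `1 / p + 1 / q = 1`. For all bounded operators `A 0, …, A (n - 1)` on a complex Hilbert
space and `1 < p ≤ 2`, the inequality `R ≤ L` holds in `[0, ∞]`. For `0 < p < 1` (then `q < 0`) it
fails for every `n ≥ 2` on every nonzero Hilbert space, for operators such that all Schatten norms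
in the inequality are positive and finite. -/
theorem result {H : Type*} [NormedAddCommGroup H] [InnerProductSpace ℂ H] [CompleteSpace H]
    (n : ℕ) (hn : 2 ≤ n) (p q : ℝ) (hpq : 1 / p + 1 / q = 1) :
    (1 < p → p ≤ 2 → ∀ A : Fin n → H →L[ℂ] H,
      schatten p (∑ j, A j) ^ q +
        ∑ x ∈ (univ : Finset (Fin n × Fin n)).filter (fun x => x.1 < x.2),
          schatten p (A x.1 - A x.2) ^ q ≤
      (n : ℝ≥0∞) * (∑ j, schatten p (A j) ^ p) ^ (q / p)) ∧
    (0 < p → p < 1 → Nontrivial H → ∃ A : Fin n → H →L[ℂ] H,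
      (∀ j, 0 < schatten p (A j) ∧ schatten p (A j) < ⊤) ∧
      (0 < schatten p (∑ j, A j) ∧ schatten p (∑ j, A j) < ⊤) ∧
      (∀ j k, j ≠ k → 0 < schatten p (A j - A k) ∧ schatten p (A j - A k) < ⊤) ∧
      (n : ℝ≥0∞) * (∑ j, schatten p (A j) ^ p) ^ (q / p) <
        schatten p (∑ j, A j) ^ q +
          ∑ x ∈ (univ : Finset (Fin n × Fin n)).filter (fun x => x.1 < x.2),
            schatten p (A x.1 - A x.2) ^ q) := by
  refine ⟨fun hp hp2 A => ?_, fun hp0 hp1 hH => ?_⟩
  · rw [right_side, left_side (by linarith)]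
    exact general_two (by positivity) mat_orthogonal abs_mat_le hp hp2 hpq A
  · exact fails_below_one n hn p q hp0 hp1 hpq

end Pool.Agent.Results.MP_5deb6a_an.TuplesLeTwo
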